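import Pool.Agent.V11103.KhinMain

/-!
The set of sequences in `{2,3}^ℕ` whose partial products form a Khintchin sequence is meagre.
-/

namespace Pool.Agent.Results.MP_83af8b_an.KhintchinMeagre

open Pool.Agent.V11103.Khin

/-- In the product `{2,3}^ℕ` of discrete spaces, the set of all `ω` whose sequence of partial
products `(ω_n ⋯ ω_1)` is a Khintchin sequence is meagre. -/
theorem result :
    IsMeagre {ω : ℕ → {m : ℕ // m = 2 ∨ m = 3} | IsKhintchin (partialProduct ω)} :=
  meagre (Or.inl rfl) (Or.inr rfl) fun m hm => by omega

end Pool.Agent.Results.MP_83af8b_an.KhintchinMeagre
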